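import Pool.Agent.H706R2.PS.Fin3

/-!
# Piatetski-Shapiro primes: the exceptional exponents have Hausdorff dimension less than one
-/

set_option autoImplicit false

open Pool.Agent.H706R2.PS MeasureTheory

namespace Pool.Agent.Results.MP_6cb6d1_nt.ExceptionalDimension

/-- For all `α` in `(1, C0]` outside a set `E` of Hausdorff dimension less than `1`, the number of primes
`p ≤ x` of the form `⌊k^α⌋` is asymptotic to `x^(1/α)/log x`, and it equals `∑_{p ≤ x} (1/α) p^(1/α-1)`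
up to an error `O(x^(1/α-κ))`, with `κ > 0` depending only on `C0`. -/
theorem result : ∀ C0 : ℝ, 1 ≤ C0 → ∃ κ : ℝ, 0 < κ ∧ ∃ E : Set ℝ, dimH E < 1 ∧
    ∀ α : ℝ, 1 < α → α ≤ C0 → α ∉ E →
    (∃ C : ℝ, ∀ y : ℕ, 1 ≤ y →
      |(({p : ℕ | (p : ℝ) ≤ y ∧ p.Prime ∧ ∃ k : ℕ, 1 ≤ k ∧ ⌊(k : ℝ) ^ α⌋₊ = p} : Set ℕ).ncard : ℝ) -
        ∑ p ∈ (Finset.Icc 1 y).filter Nat.Prime, (1 / α) * (p : ℝ) ^ (1 / α - 1)| ≤
          C * (y : ℝ) ^ (1 / α - κ)) ∧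
    Asymptotics.IsEquivalent Filter.atTop
      (fun x : ℝ => (({p : ℕ | (p : ℝ) ≤ x ∧ p.Prime ∧ ∃ k : ℕ, 1 ≤ k ∧ ⌊(k : ℝ) ^ α⌋₊ = p} : Set ℕ).ncard : ℝ))
      (fun x : ℝ => x ^ (1 / α) / Real.log x) := by
  intro C0 hC0
  obtain ⟨κ, hκ, d, hd, h⟩ := w15_full C0 hC0
  obtain ⟨E, hE, hlaw⟩ := h {p : ℕ | p.Prime}
  refine ⟨κ, hκ, E, lt_of_le_of_lt hE ?_, ?_⟩
  · rw [← ENNReal.ofReal_one]
    exact (ENNReal.ofReal_lt_ofReal_iff one_pos).mpr hd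
  intro α hα1 hα2 hαE
  obtain ⟨C, hC⟩ := hlaw α hα1 hα2 hαE
  refine ⟨⟨C, fun y hy => ?_⟩, primes_one hα1 hκ hC⟩
  rw [pi_eq α (Nat.cast_nonneg y), Nat.floor_natCast, ← mainT_primes]
  exact hC y hy

end Pool.Agent.Results.MP_6cb6d1_nt.ExceptionalDimension
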